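import Pool.Agent.Lib.MP_4d599e_an.Main

set_option autoImplicit false

open Pool.Agent.Lib.MP_4d599e_an

namespace Pool.Agent.Results.MP_4d599e_an.UnitalDichotomy

theorem result (A : Type) [NonUnitalCStarAlgebra A] [PartialOrder A] [StarOrderedRing A]
    [Nontrivial A] (hloc : ∀ a : A, ∃ u : A, u * a = a) :
    (∀ (n : ℕ) (G : SimpleGraph (Fin n)), Completable A G ↔ IsChordal G) ∨
    (∀ (n : ℕ) (G : SimpleGraph (Fin n)), Completable A G → IsUnionOfComplete G) :=
  dichotomy hloc

end Pool.Agent.Results.MP_4d599e_an.UnitalDichotomy
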